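import Pool.Agent.Lib_helper1.S7.Rels19

/-! generated: step 19, part 1 -/

namespace Pool.Agent.LibH4.S7

theorem s19_5 : chk19 e19 G19 G17 [(nat_lit 5)] = true := by decide +kernel

theorem s19_6 : chk19 e19 G19 G17 [(nat_lit 6)] = true := by decide +kernel

theorem s19_7 : chk19 e19 G19 G17 [(nat_lit 7)] = true := by decide +kernel

theorem s19_8 : chk19 e19 G19 G17 [(nat_lit 8)] = true := by decide +kernel

theorem s19_9 : chk19 e19 G19 G17 [(nat_lit 9)] = true := by decide +kernel

end Pool.Agent.LibH4.S7
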