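import Pool.Agent.Lib_helper1.S7.Rels19

/-! generated: step 19, part 2 -/

namespace Pool.Agent.LibH4.S7

theorem s19_10 : chk19 e19 G19 G17 [(nat_lit 10)] = true := by decide +kernel

theorem s19_11 : chk19 e19 G19 G17 [(nat_lit 11)] = true := by decide +kernel

theorem s19_12 : chk19 e19 G19 G17 [(nat_lit 12)] = true := by decide +kernel

theorem s19_13 : chk19 e19 G19 G17 [(nat_lit 13)] = true := by decide +kernel

theorem s19_14 : chk19 e19 G19 G17 [(nat_lit 14)] = true := by decide +kernel

end Pool.Agent.LibH4.S7
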