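import Pool.Agent.Lib_helper1.S7.St19
import Pool.Agent.Lib_helper4.S7.Dat17
import Pool.Agent.Lib_helper5.P7.T_728N19
import Pool.Agent.Lib_helper5.P7.T_95F19
import Pool.Agent.Lib_helper5.P7.T_95N13
import Pool.Agent.Lib_helper5.P7.T_133N13
import Pool.Agent.Lib_helper5.P7.T_152F19a
import Pool.Agent.Lib_helper5.P7.T_152F19b
import Pool.Agent.Lib_helper5.P7.T_399F7

/-!
Period seven: the relations of the steps to `19` and `3`.
-/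

namespace Pool.Agent.LibH4.S7

open Pool.Agent.Lib_helper5 Pool.Agent.Lib_helper5.LK Pool.Agent.Lib_helper5.TB
  Pool.Agent.LibH4.Ker

/-- relation -/
def R728N19 : Rl :=
  ⟨nat_lit 13, nat_lit 7, nat_lit 8, nat_lit 19, nat_lit 11, nat_lit 5,
  nat_lit 1, PT13, PT7, PT8, t1_728N19, t2_728N19, t3_728N19, rows_728N19, nat_lit 16⟩

lemma R728N19_holds {Q : ℕ} {a b c B m : ℤ} (S : Sys Q a b c B m)
    (hQ : 13 * 7 * 8 * 19 ∣ Q ^ 6) : Holds R728N19 a b c B m := rel_728N19 S hQ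

/-- relation -/
def R95F19 : Rl :=
  ⟨nat_lit 19, nat_lit 5, nat_lit 1, nat_lit 19, nat_lit 17, nat_lit 3,
  nat_lit 0, PT19, PT5, PT1, t1_95F19, t2_95F19, t3_95F19, rows_95F19, nat_lit 1⟩

lemma R95F19_holds {Q : ℕ} {a b c B m : ℤ} (S : Sys Q a b c B m)
    (hQ : 19 * 5 * 1 * 6859 ∣ Q ^ 6) : Holds R95F19 a b c B m := rel_95F19 S hQ

/-- relation -/
def R95N13 : Rl :=
  ⟨nat_lit 19, nat_lit 5, nat_lit 1, nat_lit 13, nat_lit 17, nat_lit 3,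
  nat_lit 0, PT19, PT5, PT1, t1_95N13, t2_95N13, t3_95N13, rows_95N13, nat_lit 1⟩

lemma R95N13_holds {Q : ℕ} {a b c B m : ℤ} (S : Sys Q a b c B m)
    (hQ : 19 * 5 * 1 * 13 ∣ Q ^ 6) : Holds R95N13 a b c B m := rel_95N13 S hQ

/-- relation -/
def R133N13 : Rl :=
  ⟨nat_lit 19, nat_lit 7, nat_lit 1, nat_lit 13, nat_lit 17, nat_lit 5,
  nat_lit 0, PT19, PT7, PT1, t1_133N13, t2_133N13, t3_133N13, rows_133N13, nat_lit 1⟩

lemma R133N13_holds {Q : ℕ} {a b c B m : ℤ} (S : Sys Q a b c B m)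
    (hQ : 19 * 7 * 1 * 13 ∣ Q ^ 6) : Holds R133N13 a b c B m := rel_133N13 S hQ

/-- relation -/
def R152F19a : Rl :=
  ⟨nat_lit 19, nat_lit 8, nat_lit 1, nat_lit 19, nat_lit 17, nat_lit 1,
  nat_lit 0, PT19, PT8, PT1, t1_152F19a, t2_152F19a, t3_152F19a, rows_152F19a, nat_lit 1⟩

lemma R152F19a_holds {Q : ℕ} {a b c B m : ℤ} (S : Sys Q a b c B m)
    (hQ : 19 * 8 * 1 * 6859 ∣ Q ^ 6) : Holds R152F19a a b c B m := rel_152F19a S hQ

/-- relation -/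
def R152F19b : Rl :=
  ⟨nat_lit 19, nat_lit 8, nat_lit 1, nat_lit 19, nat_lit 17, nat_lit 1,
  nat_lit 0, PT19, PT8, PT1, t1_152F19b, t2_152F19b, t3_152F19b, rows_152F19b, nat_lit 1⟩

lemma R152F19b_holds {Q : ℕ} {a b c B m : ℤ} (S : Sys Q a b c B m)
    (hQ : 19 * 8 * 1 * 6859 ∣ Q ^ 6) : Holds R152F19b a b c B m := rel_152F19b S hQ

/-- relation -/
def R399F7 : Rl :=
  ⟨nat_lit 19, nat_lit 7, nat_lit 3, nat_lit 7, nat_lit 17, nat_lit 5,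
  nat_lit 1, PT19, PT7, PT3, t1_399F7, t2_399F7, t3_399F7, rows_399F7, nat_lit 3⟩

lemma R399F7_holds {Q : ℕ} {a b c B m : ℤ} (S : Sys Q a b c B m)
    (hQ : 19 * 7 * 3 * 343 ∣ Q ^ 6) : Holds R399F7 a b c B m := rel_399F7 S hQ

/-- the relations of the step -/
def e19 : E19 := ⟨R728N19, R95F19, R95N13, R133N13, R152F19a, R152F19b⟩

lemma e19_ok : E19OK e19 :=
  ⟨⟨rfl, rfl, rfl, rfl, by decide⟩,
    ⟨rfl, rfl, rfl, rfl, by decide⟩,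
    ⟨rfl, rfl, rfl, rfl, by decide⟩,
    ⟨rfl, rfl, rfl, rfl, by decide⟩,
    ⟨rfl, rfl, rfl, rfl, by decide⟩,
    ⟨rfl, rfl, rfl, rfl, by decide⟩,
    rfl, rfl⟩

lemma e19_holds {Q : ℕ} {a b c B m : ℤ} (S : Sys Q a b c B m) (hQ : 17290 ∣ Q) :
    E19H e19 a b c B m :=
  have h6 : 17290 ^ 6 ∣ Q ^ 6 := pow_dvd_pow_of_dvd hQ 6
  ⟨R728N19_holds S ((by decide : 13 * 7 * 8 * 19 ∣ 17290 ^ 6).trans h6),
    R95F19_holds S ((by decide : 19 * 5 * 1 * 6859 ∣ 17290 ^ 6).trans h6),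
    R95N13_holds S ((by decide : 19 * 5 * 1 * 13 ∣ 17290 ^ 6).trans h6),
    R133N13_holds S ((by decide : 19 * 7 * 1 * 13 ∣ 17290 ^ 6).trans h6),
    R152F19a_holds S ((by decide : 19 * 8 * 1 * 6859 ∣ 17290 ^ 6).trans h6),
    R152F19b_holds S ((by decide : 19 * 8 * 1 * 6859 ∣ 17290 ^ 6).trans h6)⟩

/-- the survivor at 19 -/
def G19 : List ℕ := [nat_lit 26133128431186840360807115214739541114193453306247]

/-- the first form is admissible -/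
lemma ad_one {Q : ℕ} {a b c B m : ℤ} (S : Sys Q a b c B m) {p : ℕ} [NeZero p] (hp : p.Prime)
    (hp2 : p ≠ 2) (hQ : p ∣ Q) : adP p (rs p m) (rs p B) (rs p (-1)) = true :=
  adP_of S hp hp2 hQ _ (List.mem_cons_self : (⟨m, B, -1, 0, -B⟩ : Fm) ∈ J7 a b c B m)

end Pool.Agent.LibH4.S7
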