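import Pool.Agent.Lib_helper4.S7.St17

/-!
Period seven: the step to the prime `19` and the last step, prime `3`.
-/

namespace Pool.Agent.LibH4.S7

open Pool.Agent.Lib_helper5 Pool.Agent.Lib_helper5.LK Pool.Agent.Lib_helper5.TB
  Pool.Agent.Lib_helper5.Lane Pool.Agent.LibH4.Ker

/-! ### components of a tuple -/

/-- component modulo 13 -/
def t13 (x : ℕ) : ℕ := lo x
/-- component modulo 7 -/
def t7 (x : ℕ) : ℕ := lo (hi x)
/-- component modulo 5 -/
def t5 (x : ℕ) : ℕ := lo (hi (hi x))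
/-- component modulo 8 -/
def t8 (x : ℕ) : ℕ := lo (hi (hi (hi x)))

section Tup

variable {a b c B m : ℤ} {k11 k17 : ℕ}

lemma t13_tup : t13 (tup (cd 13 a b c B m) (cd 7 a b c B m) (cd 5 a b c B m) (cd 8 a b c B m)
    k11 k17) = cd 13 a b c B m := by
  unfold t13 tup
  rw [lo_pk (cd_lt (by norm_num) a b c B m)]

lemma t7_tup : t7 (tup (cd 13 a b c B m) (cd 7 a b c B m) (cd 5 a b c B m) (cd 8 a b c B m)
    k11 k17) = cd 7 a b c B m := by
  unfold t7 tup
  rw [hi_pk (cd_lt (by norm_num) a b c B m), lo_pk (cd_lt (by norm_num) a b c B m)]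

lemma t5_tup : t5 (tup (cd 13 a b c B m) (cd 7 a b c B m) (cd 5 a b c B m) (cd 8 a b c B m)
    k11 k17) = cd 5 a b c B m := by
  unfold t5 tup
  rw [hi_pk (cd_lt (by norm_num) a b c B m), hi_pk (cd_lt (by norm_num) a b c B m),
    lo_pk (cd_lt (by norm_num) a b c B m)]

lemma t8_tup : t8 (tup (cd 13 a b c B m) (cd 7 a b c B m) (cd 5 a b c B m) (cd 8 a b c B m)
    k11 k17) = cd 8 a b c B m := by
  unfold t8 tup
  rw [hi_pk (cd_lt (by norm_num) a b c B m), hi_pk (cd_lt (by norm_num) a b c B m),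
    hi_pk (cd_lt (by norm_num) a b c B m), lo_pk (cd_lt (by norm_num) a b c B m)]

end Tup

/-- lanes, all components known -/
theorem RC.FB {r : Rl} {n1 n2 n3 l : ℕ} {a b c B m : ℤ} (rc : RC r n1 n2 n3 l)
    (h : Holds r a b c B m) {N1 N2 N3 : ℕ}
    [NeZero n1] [NeZero n2] [NeZero n3] [NeZero l] [NeZero N1] [NeZero N2] [NeZero N3]
    (h1 : n1 ∣ N1) (h2 : n2 ∣ N2) (h3 : n3 ∣ N3) (hl : LOK l) {α : Type} {k1 k2 k3 : α → ℕ}
    {K : List α} {i : ℕ} (hi : i < K.length) (e1 : k1 K[i] = cd N1 a b c B m)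
    (e2 : k2 K[i] = cd N2 a b c B m) (e3 : k3 K[i] = cd N3 a b c B m) :
    (msk l K.length (FB
      (packL (2 ^ 24) (fun x => kvx r N1 N2 N3 (k1 x) (k2 x) (k3 x)) K)
      (packL (2 ^ 24) (fun x => yt r N1 N2 N3 (k1 x) (k2 x) (k3 x) 0) K)
      (packL (2 ^ 24) (fun x => yt r N1 N2 N3 (k1 x) (k2 x) (k3 x) 1) K)
      (packL (2 ^ 24) (fun x => yt r N1 N2 N3 (k1 x) (k2 x) (k3 x) 2) K)
      (packL (2 ^ 24) (fun x => yt r N1 N2 N3 (k1 x) (k2 x) (k3 x) 3) K)
      (rs l (-B)) (rs l (-(2 * a))) (rs l (-(2 * b))) (rs l (-(2 * c))))).testBit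
        (24 * i + 15) = true := by
  obtain ⟨rfl, rfl, rfl, rfl, _⟩ := rc
  exact FB_bit h h1 h2 h3 hl hi e1 e2 e3

/-! ### step 19 -/

/-- relations of the step -/
structure E19 where
  /-- relation -/
  r728 : Rl
  /-- relation -/
  r95 : Rl
  /-- relation -/
  r95n : Rl
  /-- relation -/
  r133 : Rl
  /-- relation -/
  r152a : Rl
  /-- relation -/
  r152b : Rl

/-- the components -/
structure E19OK (E : E19) : Prop where
  r728 : RC E.r728 13 7 8 19
  r95 : RC E.r95 19 5 1 19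
  r95n : RC E.r95n 19 5 1 13
  r133 : RC E.r133 19 7 1 13
  r152a : RC E.r152a 19 8 1 19
  r152b : RC E.r152b 19 8 1 19
  x95 : E.r95.ex1 = 17
  p95 : E.r95.PT1 = PT19

/-- the relations hold -/
structure E19H (E : E19) (a b c B m : ℤ) : Prop where
  r728 : Holds E.r728 a b c B m
  r95 : Holds E.r95 a b c B m
  r95n : Holds E.r95n a b c B m
  r133 : Holds E.r133 a b c B m
  r152a : Holds E.r152a a b c B m
  r152b : Holds E.r152b a b c B m

/-- a lane -/
def l19l (E : E19) (G K : List ℕ) (k19 i : ℕ) : Bool :=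
  strict (nthN K i) fun x =>
  strict (t13 x) fun k13 => strict (t7 x) fun k7 => strict (t5 x) fun k5 =>
  strict (t8 x) fun k8 =>
  chkS E.r95n (nat_lit 19) (nat_lit 5) (nat_lit 1) k19 k5 (nat_lit 0) k13
  (chkS E.r133 (nat_lit 19) (nat_lit 7) (nat_lit 1) k19 k7 (nat_lit 0) k13
  (chkS E.r152a (nat_lit 19) (nat_lit 8) (nat_lit 1) k19 k8 (nat_lit 0) k19
  (chkS E.r152b (nat_lit 19) (nat_lit 8) (nat_lit 1) k19 k8 (nat_lit 0) k19
    (memN (pk k19 x) G))))

/-- check of a class modulo 19 -/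
def l19w (E : E19) (G K : List ℕ) (X Y0 Y1 Y2 Y3 : ℕ) (S : L5) : CB :=
  fun B m a b c m2 m3 q0 q1 q2 q3 q4 A0 A1 A2 A3 =>
  strict (msk (nat_lit 19) K.length (FB X Y0 Y1 Y2 Y3 A0 A1 A2 A3)) fun M1 =>
  @Bool.rec (fun _ => Bool)
    (strict (Nat.land M1 (msk (nat_lit 19) K.length
      (FL E.r95 S m m2 m3 q0 q1 q2 q3 q4 A0 A1 A2 A3))) fun M =>
      @Bool.rec (fun _ => Bool)
        (strict (ck (nat_lit 19) a b c B m) fun k19 => enumT (l19l E G K k19) K.length M)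
        true (Nat.beq M (nat_lit 0)))
    true (Nat.beq M1 (nat_lit 0))

/-- **check at 19** -/
def chk19 (E : E19) (G K Bs : List ℕ) : Bool :=
  strict (packL (nat_lit 16777216) (fun x => kvx E.r728 (nat_lit 13) (nat_lit 7) (nat_lit 8)
    (t13 x) (t7 x) (t8 x)) K) fun X =>
  strict (packL (nat_lit 16777216) (fun x => yt E.r728 (nat_lit 13) (nat_lit 7) (nat_lit 8)
    (t13 x) (t7 x) (t8 x) (nat_lit 0)) K) fun Y0 =>
  strict (packL (nat_lit 16777216) (fun x => yt E.r728 (nat_lit 13) (nat_lit 7) (nat_lit 8)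
    (t13 x) (t7 x) (t8 x) (nat_lit 1)) K) fun Y1 =>
  strict (packL (nat_lit 16777216) (fun x => yt E.r728 (nat_lit 13) (nat_lit 7) (nat_lit 8)
    (t13 x) (t7 x) (t8 x) (nat_lit 2)) K) fun Y2 =>
  strict (packL (nat_lit 16777216) (fun x => yt E.r728 (nat_lit 13) (nat_lit 7) (nat_lit 8)
    (t13 x) (t7 x) (t8 x) (nat_lit 3)) K) fun Y3 =>
  mkL5 (fun j x => ld E.r95 (nat_lit 5) (nat_lit 1) (t5 x) (nat_lit 0) j) K fun S =>
    allL (wB (nat_lit 19) (nat_lit 17) PT19 (l19w E G K X Y0 Y1 Y2 Y3 S)) Bs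

section Spec19

variable {E : E19} {a b c B m : ℤ} {G K : List ℕ} {k11 k17 : ℕ}

lemma l19l_spec (hE : E19OK E) (hH : E19H E a b c B m) {i : ℕ} (hi : i < K.length)
    (hx : K[i] = tup (cd 13 a b c B m) (cd 7 a b c B m) (cd 5 a b c B m) (cd 8 a b c B m)
      k11 k17)
    (h : l19l E G K (cd 19 a b c B m) i = true) :
    pk (cd 19 a b c B m) (tup (cd 13 a b c B m) (cd 7 a b c B m) (cd 5 a b c B m)
      (cd 8 a b c B m) k11 k17) ∈ G := by
  unfold l19l at h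
  simp only [strict_eq] at h
  rw [nthN_eq hi, hx, t13_tup, t7_tup, t5_tup, t8_tup] at h
  have c1 : (nat_lit 0) = cd 1 a b c B m := (cd_one a b c B m).symm
  rw [c1] at h
  have h1 := hE.r95n.chk hH.r95n (dvd_refl _) (dvd_refl _) (dvd_refl _) (by norm_num) h
  have h2 := hE.r133.chk hH.r133 (dvd_refl _) (dvd_refl _) (dvd_refl _) (by norm_num) h1
  have h3 := hE.r152a.chk hH.r152a (dvd_refl _) (dvd_refl _) (dvd_refl _) (by norm_num) h2
  have h4 := hE.r152b.chk hH.r152b (dvd_refl _) (dvd_refl _) (dvd_refl _) (by norm_num) h3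
  exact memN_spec h4

lemma two_masks {M1 M2 i : ℕ} (b1 : M1.testBit i = true) (b2 : M2.testBit i = true)
    {f : ℕ → Bool}
    (h : (strict M1 fun M1 => @Bool.rec (fun _ => Bool)
      (strict (Nat.land M1 M2) fun M => @Bool.rec (fun _ => Bool) (f M) true
        (Nat.beq M (nat_lit 0))) true (Nat.beq M1 (nat_lit 0))) = true) :
    f (Nat.land M1 M2) = true := by
  rw [strict_eq, ne_zero_of_bit b1] at h
  simp only [strict_eq] at h
  rw [ne_zero_of_bit (land_bit b1 b2)] at h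
  exact h

/-- **step 19** -/
theorem chk19_spec (hE : E19OK E) (hH : E19H E a b c B m) (hcl : Cl a b c B m)
    (had : adP 19 (rs 19 m) (rs 19 B) (rs 19 (-1)) = true) {Bs : List ℕ}
    (hB : rs 19 B ∈ Bs)
    (hK : tup (cd 13 a b c B m) (cd 7 a b c B m) (cd 5 a b c B m) (cd 8 a b c B m)
      k11 k17 ∈ K)
    (h : chk19 E G K Bs = true) :
    pk (cd 19 a b c B m) (tup (cd 13 a b c B m) (cd 7 a b c B m) (cd 5 a b c B m)
      (cd 8 a b c B m) k11 k17) ∈ G := by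
  unfold chk19 at h
  simp only [strict_eq] at h
  rw [mkL5_eq] at h
  have h1 := wB_spec (by norm_num) hcl had (allL_spec h _ hB)
  obtain ⟨i, hi, hx⟩ := List.mem_iff_getElem.1 hK
  have e1 : t13 K[i] = cd 13 a b c B m := by rw [hx, t13_tup]
  have e2 : t7 K[i] = cd 7 a b c B m := by rw [hx, t7_tup]
  have e3 : t8 K[i] = cd 8 a b c B m := by rw [hx, t8_tup]
  have e4 : t5 K[i] = cd 5 a b c B m := by rw [hx, t5_tup]
  have e5 : (fun _ : ℕ => (0 : ℕ)) K[i] = cd 1 a b c B m := (cd_one a b c B m).symm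
  have b1 := hE.r728.FB hH.r728 (dvd_refl 13) (dvd_refl 7) (dvd_refl 8) lok19
    (k1 := t13) (k2 := t7) (k3 := t8) hi e1 e2 e3
  have b2 := hE.r95.FL hE.x95 hE.p95 hH.r95 (by norm_num) (dvd_refl 5) (dvd_refl 1)
    lok19 (k2 := t5) (k3 := fun _ => 0) hi e4 e5
  have b3 := land_bit b1 b2
  unfold l19w at h1
  have h2 := two_masks b1 b2 h1
  simp only [strict_eq] at h2
  have h3 := enumT_spec h2 i hi b3
  exact l19l_spec hE hH hi hx h3

end Spec19

end Pool.Agent.LibH4.S7
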