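import Pool.Agent.Lib_helper1.S7.G19_0
import Pool.Agent.Lib_helper1.S7.G19_1
import Pool.Agent.Lib_helper1.S7.G19_2
import Pool.Agent.Lib_helper1.S7.G19_3

/-!
Period seven: the steps to `19` and `3`: no class survives.
-/

namespace Pool.Agent.LibH4.S7

open Pool.Agent.Lib_helper5 Pool.Agent.Lib_helper5.LK Pool.Agent.Lib_helper5.TB
  Pool.Agent.Lib_helper5.Lane Pool.Agent.LibH4.Ker

theorem g19_all : ∀ x < 19, ∃ Bs, x ∈ Bs ∧ chk19 e19 G19 G17 Bs = true := by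
  intro x hx
  interval_cases x
  · exact ⟨_, by simp, s19_0⟩
  · exact ⟨_, by simp, s19_1⟩
  · exact ⟨_, by simp, s19_2⟩
  · exact ⟨_, by simp, s19_3⟩
  · exact ⟨_, by simp, s19_4⟩
  · exact ⟨_, by simp, s19_5⟩
  · exact ⟨_, by simp, s19_6⟩
  · exact ⟨_, by simp, s19_7⟩
  · exact ⟨_, by simp, s19_8⟩
  · exact ⟨_, by simp, s19_9⟩
  · exact ⟨_, by simp, s19_10⟩
  · exact ⟨_, by simp, s19_11⟩
  · exact ⟨_, by simp, s19_12⟩
  · exact ⟨_, by simp, s19_13⟩
  · exact ⟨_, by simp, s19_14⟩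
  · exact ⟨_, by simp, s19_15⟩
  · exact ⟨_, by simp, s19_16⟩
  · exact ⟨_, by simp, s19_17⟩
  · exact ⟨_, by simp, s19_18⟩

/-! ### step 3 -/

/-- check of a class modulo 3 -/
def w3 (r : Rl) (k19 k7 : ℕ) : CB := fun B m a b c _ _ _ _ _ _ _ _ _ _ _ =>
  strict (ck (nat_lit 3) a b c B m) fun k3 =>
    chkS r (nat_lit 19) (nat_lit 7) (nat_lit 3) k19 k7 k3 k7 false

/-- **check at 3** -/
def chk3 (r : Rl) (k19 k7 : ℕ) : Bool :=
  allR (wB (nat_lit 3) (nat_lit 1) PT3 (w3 r k19 k7)) (nat_lit 3)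

theorem chk3_spec {r : Rl} {a b c B m : ℤ} (hr : RC r 19 7 3 7) (hh : Holds r a b c B m)
    (hcl : Cl a b c B m) (had : adP 3 (rs 3 m) (rs 3 B) (rs 3 (-1)) = true) {k19 k7 : ℕ}
    (e19 : cd 19 a b c B m = k19) (e7 : cd 7 a b c B m = k7)
    (h : chk3 r k19 k7 = true) : False := by
  have h0 := allR_spec h (rs 3 B) (rs_lt B)
  have h1 := wB_spec (by norm_num) hcl had h0
  unfold w3 at h1
  simp only [strict_eq] at h1
  subst e19 e7
  have h2 := hr.chk hh (dvd_refl _) (dvd_refl _) (dvd_refl _) (by norm_num) h1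
  exact absurd h2 (by simp)

theorem s3_all : chk3 R399F7 (nat_lit 2150791) (nat_lit 10220) = true := by decide +kernel

/-- **the steps to 19 and 3** -/
theorem st19 {Q : ℕ} {a b c B m : ℤ} (S : Sys Q a b c B m) (hQ : 2 * 3 * 5 * 7 * 13 * 19 ∣ Q)
    (h : tup (cd 13 a b c B m) (cd 7 a b c B m) (cd 5 a b c B m) (cd 8 a b c B m)
      (cd 11 a b c B m) (cd 17 a b c B m) ∈ G17) : False := by
  have H19 := e19_holds S ((by norm_num : 17290 ∣ 2 * 3 * 5 * 7 * 13 * 19).trans hQ)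
  have a19 := ad_one S (p := 19) (by norm_num) (by norm_num)
    ((by norm_num : 19 ∣ 2 * 3 * 5 * 7 * 13 * 19).trans hQ)
  have a3 := ad_one S (p := 3) (by norm_num) (by norm_num)
    ((by norm_num : 3 ∣ 2 * 3 * 5 * 7 * 13 * 19).trans hQ)
  have h6 : 51870 ^ 6 ∣ Q ^ 6 :=
    pow_dvd_pow_of_dvd ((by norm_num : 51870 ∣ 2 * 3 * 5 * 7 * 13 * 19).trans hQ) 6
  have H3 := R399F7_holds S ((by decide : 19 * 7 * 3 * 343 ∣ 51870 ^ 6).trans h6)
  obtain ⟨Bs, hB, hc⟩ := g19_all _ (rs_lt B)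
  have h1 := chk19_spec e19_ok H19 S.cl a19 hB h hc
  have h2 : pk (cd 19 a b c B m) (tup (cd 13 a b c B m) (cd 7 a b c B m) (cd 5 a b c B m)
      (cd 8 a b c B m) (cd 11 a b c B m) (cd 17 a b c B m)) =
      26133128431186840360807115214739541114193453306247 := List.mem_singleton.1 h1
  have k19 : cd 19 a b c B m = 2150791 := by
    have e := congrArg lo h2
    rw [lo_pk (cd_lt (by norm_num) a b c B m)] at e
    exact e.trans (by decide +kernel)
  have k7 : cd 7 a b c B m = 10220 := by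
    have e := congrArg (fun x => t7 (hi x)) h2
    rw [hi_pk (cd_lt (by norm_num) a b c B m), t7_tup] at e
    exact e.trans (by decide +kernel)
  exact chk3_spec ⟨rfl, rfl, rfl, rfl, by decide⟩ H3 S.cl a3 k19 k7 s3_all

end Pool.Agent.LibH4.S7
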